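import Pool.Agent.Run7.h523.KF.Iface3

/-!
# Piece CHP: Poincaré inequality in one chamber (helper324)
-/

set_option autoImplicit false

namespace Run7.h324.KF

open MeasureTheory Set Filter Topology Metric Run7.h523.KF

section
variable {P : Type} [Fintype P] [DecidableEq P]

/-- signed permutations -/
def sp (σ : Equiv.Perm P) (ε : P → ℝ) (y : P → ℝ) : P → ℝ := fun v => ε v * y (σ v)

theorem sq_one {ε : P → ℝ} (hε : ∀ v, ε v = 1 ∨ ε v = -1) (v : P) : ε v * ε v = 1 := by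
  rcases hε v with h | h <;> rw [h] <;> norm_num

/-- the inverse signed permutation -/
theorem sp_left {σ : Equiv.Perm P} {ε : P → ℝ} (hε : ∀ v, ε v = 1 ∨ ε v = -1) (y : P → ℝ) :
    sp σ.symm (fun v => ε (σ.symm v)) (sp σ ε y) = y := by
  funext v
  simp only [sp, Equiv.apply_symm_apply]
  rw [← mul_assoc, sq_one hε, one_mul]

theorem sp_right {σ : Equiv.Perm P} {ε : P → ℝ} (hε : ∀ v, ε v = 1 ∨ ε v = -1) (y : P → ℝ) :
    sp σ ε (sp σ.symm (fun v => ε (σ.symm v)) y) = y := by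
  funext v
  simp only [sp, Equiv.symm_apply_apply]
  rw [← mul_assoc, sq_one hε, one_mul]

theorem sp_cont (σ : Equiv.Perm P) (ε : P → ℝ) : Continuous (sp σ ε) := by
  unfold sp; fun_prop

/-- signed permutations as homeomorphisms -/
def spH (σ : Equiv.Perm P) (ε : P → ℝ) (hε : ∀ v, ε v = 1 ∨ ε v = -1) :
    (P → ℝ) ≃ₜ (P → ℝ) where
  toFun := sp σ ε
  invFun := sp σ.symm (fun v => ε (σ.symm v))
  left_inv := sp_left hε
  right_inv := sp_right hε
  continuous_toFun := sp_cont _ _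
  continuous_invFun := sp_cont _ _

/-- signed permutations as linear maps -/
noncomputable def spL (σ : Equiv.Perm P) (ε : P → ℝ) : (P → ℝ) →L[ℝ] (P → ℝ) :=
  ContinuousLinearMap.pi fun v => ε v • ContinuousLinearMap.proj (σ v)

theorem spL_apply (σ : Equiv.Perm P) (ε : P → ℝ) (y : P → ℝ) : spL σ ε y = sp σ ε y := by
  funext v
  simp [spL, sp]

theorem sp_single (σ : Equiv.Perm P) (ε : P → ℝ) (v : P) :
    sp σ ε (Pi.single (σ v) 1) = ε v • (Pi.single v (1 : ℝ) : P → ℝ) := by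
  funext w
  simp only [sp, Pi.smul_apply, smul_eq_mul]
  by_cases h : w = v
  · subst h; simp
  · rw [Pi.single_eq_of_ne (fun h' => h (σ.injective h')), Pi.single_eq_of_ne h]
    simp

theorem fd_norm {f : (P → ℝ) → ℝ} {C : ℝ} (hf : Bf f C) (x : P → ℝ) :
    ‖fderiv ℝ f x‖ ≤ Fintype.card P * C := by
  have hC : 0 ≤ C := (abs_nonneg _).trans (hf.bd 0)
  refine ContinuousLinearMap.opNorm_le_bound _ (by positivity) fun y => ?_
  have e : y = ∑ v, y v • (Pi.single v (1 : ℝ) : P → ℝ) := by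
    have := (Pi.basisFun ℝ P).sum_repr y
    simpa using this.symm
  calc ‖fderiv ℝ f x y‖ = ‖∑ v, y v * fderiv ℝ f x (Pi.single v 1)‖ := by
        conv_lhs => rw [e, map_sum]
        simp
    _ ≤ ∑ v, ‖y v * fderiv ℝ f x (Pi.single v 1)‖ := norm_sum_le _ _
    _ ≤ ∑ _v : P, ‖y‖ * C := by
        refine Finset.sum_le_sum fun v _ => ?_
        rw [norm_mul]
        exact mul_le_mul (norm_le_pi_norm y v) (hf.db x v) (norm_nonneg _) (norm_nonneg _)
    _ = Fintype.card P * C * ‖y‖ := by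
        simp; ring

theorem f_lip {f : (P → ℝ) → ℝ} {C : ℝ} (hf : Bf f C) (x y : P → ℝ) :
    |f x - f y| ≤ Fintype.card P * C * ‖x - y‖ := by
  have h := Convex.norm_image_sub_le_of_norm_fderiv_le (𝕜 := ℝ) (f := f) (s := Set.univ)
    (C := Fintype.card P * C) (x := y) (y := x)
    (fun z _ => (hf.cd.contDiffAt).differentiableAt (by norm_num)) (fun z _ => fd_norm hf z)
    convex_univ (mem_univ _) (mem_univ _)
  exact h

theorem norm_le_sum (y : P → ℝ) (A : ℝ) (hA : 0 ≤ A) (h : ∑ v, y v ^ 2 ≤ A ^ 2) : ‖y‖ ≤ A := by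
  rw [pi_norm_le_iff_of_nonneg hA]
  intro v
  have h1 : y v ^ 2 ≤ A ^ 2 :=
    (Finset.single_le_sum (f := fun v => y v ^ 2) (fun _ _ => sq_nonneg _) (Finset.mem_univ v)).trans h
  rw [Real.norm_eq_abs]
  exact abs_le_of_sq_le_sq h1 hA

theorem sum_le_norm (y : P → ℝ) : ∑ v, y v ^ 2 ≤ (Fintype.card P * ‖y‖) ^ 2 := by
  have h1 : ∑ v, y v ^ 2 ≤ ∑ _v : P, ‖y‖ ^ 2 := Finset.sum_le_sum fun v _ => by
    have := norm_le_pi_norm y v
    rw [Real.norm_eq_abs] at this
    exact sq_le_sq' (by have := (abs_le.1 this).1; linarith) (abs_le.1 this).2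
  refine h1.trans ?_
  simp only [Finset.sum_const, Finset.card_univ, nsmul_eq_mul, mul_pow]
  refine mul_le_mul_of_nonneg_right ?_ (sq_nonneg _)
  rcases Nat.eq_zero_or_pos (Fintype.card P) with h0 | h0
  · rw [h0]; norm_num
  · have : (1 : ℝ) ≤ Fintype.card P := by exact_mod_cast h0
    nlinarith

end

/-- CHP. -/
theorem t_CHP (h0 : S_CH0) (hspm : S_SPM) (hsrt : S_SRT) (hmol : S_MOL) (K : ℝ) (hosp : S_OSP K) :
    S_CHP K := by
  intro P _ _ _ ρ s C f x hρ hs hm hf hx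
  obtain ⟨hopen, hdisj, hnull, -, -⟩ := h0 P
  obtain ⟨hpres, -⟩ := hspm P
  obtain ⟨S, hS, hSc⟩ := hsrt P x hx
  have hC : 0 ≤ C := (abs_nonneg _).trans (hf.bd 0)
  set n : ℝ := ((Fintype.card P : ℕ) : ℝ) with hn
  have hn0 : 0 ≤ n := Nat.cast_nonneg _
  set g : (P → ℝ) → ℝ := fun y => f (S y) with hg
  set C2 : ℝ := C + n * C * n with hC2
  have hC2' : 0 ≤ n * C * n := by positivity
  have hgb : ∀ y, |g y| ≤ C2 := fun y => (hf.bd _).trans (by linarith)
  have hgL : ∀ y z, |g y - g z| ≤ C2 * dist y z := by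
    intro y z
    have h1 := f_lip hf (S y) (S z)
    have h2 : ‖S y - S z‖ ≤ n * ‖y - z‖ := by
      refine norm_le_sum _ _ (by positivity) ?_
      refine (hS y z).trans ?_
      exact sum_le_norm (y - z)
    calc |g y - g z| ≤ n * C * ‖S y - S z‖ := h1
      _ ≤ n * C * (n * ‖y - z‖) := mul_le_mul_of_nonneg_left h2 (by positivity)
      _ = n * C * n * dist y z := by rw [dist_eq_norm]; ring
      _ ≤ C2 * dist y z := mul_le_mul_of_nonneg_right (by linarith) dist_nonneg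
  set U : Set (P → ℝ) := ⋃ x' ∈ XX P, Ch x' with hU
  have hUo : IsOpen U := isOpen_biUnion fun x' hx' => hopen x' hx'
  -- near a point of a chamber `g` is `f` composed with a linear map
  have hloc : ∀ x' ∈ XX P, ∃ (σ : Equiv.Perm P) (ε : P → ℝ), (∀ v, ε v = 1 ∨ ε v = -1) ∧
      (∀ y ∈ Ch x', g y = f (sp σ ε y)) ∧ (∀ y, y ∈ Ch x' ↔ sp σ ε y ∈ Ch x) ∧
      (∀ y ∈ Ch x', g =ᶠ[𝓝 y] fun z => f (spL σ ε z)) ∧ ∀ y ∈ Ch x', gr g y = gr f (sp σ ε y) := by
    intro x' hx'
    obtain ⟨σ, ε, hε, h1, h2⟩ := hSc x' hx'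
    have h3 : ∀ y ∈ Ch x', g y = f (sp σ ε y) := fun y hy => by
      change f (S y) = _
      rw [h1 y hy]; rfl
    have h4 : ∀ y ∈ Ch x', g =ᶠ[𝓝 y] fun z => f (spL σ ε z) := by
      intro y hy
      filter_upwards [(hopen x' hx').mem_nhds hy] with z hz
      rw [h3 z hz, spL_apply]
    refine ⟨σ, ε, hε, h3, h2, h4, ?_⟩
    intro y hy
    unfold gr
    have h5 : fderiv ℝ g y = (fderiv ℝ f (spL σ ε y)).comp (spL σ ε) := by
      rw [(h4 y hy).fderiv_eq]
      have := fderiv_comp (𝕜 := ℝ) (f := spL σ ε) (g := f) y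
        ((hf.cd.contDiffAt).differentiableAt (by norm_num)) (spL σ ε).differentiableAt
      rw [show (fun z => f (spL σ ε z)) = f ∘ (spL σ ε) from rfl, this,
        ContinuousLinearMap.fderiv]
    rw [← Equiv.sum_comp σ]
    refine Finset.sum_congr rfl fun v _ => ?_
    rw [h5, ContinuousLinearMap.comp_apply, spL_apply, spL_apply, sp_single, map_smul,
      smul_eq_mul, mul_pow, pow_two (ε v), sq_one hε, one_mul]
  have hgd : ContDiffOn ℝ 1 g U := by
    intro y hy
    simp only [hU, mem_iUnion] at hy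
    obtain ⟨x', hx', hy⟩ := hy
    obtain ⟨σ, ε, -, -, -, h4, -⟩ := hloc x' hx'
    have h5 : ContDiffAt ℝ 1 (fun z => f (spL σ ε z)) y :=
      (hf.cd.contDiffAt).comp y (spL σ ε).contDiff.contDiffAt
    exact (h5.congr_of_eventuallyEq (h4 y hy)).contDiffWithinAt
  have hρi : Integrable ρ := by
    refine ⟨hρ.meas.aestronglyMeasurable, ?_⟩
    rw [hasFiniteIntegral_iff_ofReal (Eventually.of_forall hρ.nonneg), hρ.mass]
    exact ENNReal.one_lt_top
  have hmain := hmol P ρ (K * s) C2 g U hρ.nonneg hρ.meas hρ.mass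
    (fun f' C' hf' => hosp P ρ s C' f' hρ hs hm hf') hgb hgL hUo hnull hgd
  -- integrals over the chambers
  have htr : ∀ (Ψ Φ : (P → ℝ) → ℝ), (∀ x' ∈ XX P, ∀ (σ : Equiv.Perm P) (ε : P → ℝ),
      (∀ v, ε v = 1 ∨ ε v = -1) → (∀ y ∈ Ch x', g y = f (sp σ ε y)) →
      (∀ y ∈ Ch x', gr g y = gr f (sp σ ε y)) → ∀ y ∈ Ch x', Ψ y = Φ (sp σ ε y)) →
      Integrable (fun y => Ψ y * ρ y) →
      ∫ y, Ψ y * ρ y = (XX P).card * ∫ y in Ch x, Φ y * ρ y := by
    intro Ψ Φ hΨ hint
    have e1 : ∫ y, Ψ y * ρ y = ∫ y in U, Ψ y * ρ y := by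
      have := integral_add_compl hUo.measurableSet hint
      rw [setIntegral_measure_zero _ hnull, add_zero] at this
      exact this.symm
    rw [e1, hU, integral_biUnion_finset _ (fun x' hx' => (hopen x' hx').measurableSet)
      (fun a ha b hb hab => hdisj a ha b hb hab) (fun _ _ => hint.integrableOn)]
    rw [Finset.sum_congr rfl (g := fun _ => ∫ y in Ch x, Φ y * ρ y), Finset.sum_const,
      nsmul_eq_mul]
    intro x' hx'
    obtain ⟨σ, ε, hε, h3, h2, -, h6⟩ := hloc x' hx'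
    have hpre : Ch x' = (sp σ ε) ⁻¹' (Ch x) := by
      ext y; exact h2 y
    have hmp : MeasurePreserving (sp σ ε) := hpres σ ε hε
    have h7 := hmp.setIntegral_preimage_emb (spH σ ε hε).measurableEmbedding
      (fun y => Φ y * ρ y) (Ch x)
    rw [← h7, ← hpre]
    refine setIntegral_congr_fun (hopen x' hx').measurableSet fun y hy => ?_
    have h8 : ρ (sp σ ε y) = ρ y := by
      refine hρ.inv σ y (sp σ ε y) fun i => ?_
      simp only [sp, abs_mul]
      rcases hε i with h | h <;> rw [h] <;> simp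
    change Ψ y * ρ y = Φ (sp σ ε y) * ρ (sp σ ε y)
    rw [h8, hΨ x' hx' σ ε hε h3 h6 y hy]
  have hgc : Continuous g := by
    refine (LipschitzWith.of_dist_le_mul (K := ⟨C2, by positivity⟩) fun x y => ?_).continuous
    rw [Real.dist_eq]
    exact hgL x y
  have hgm : Measurable (gr g) := by
    unfold gr
    refine Finset.measurable_sum _ fun v _ => ?_
    exact (measurable_fderiv_apply_const ℝ g _).pow_const 2
  have hgfd : ∀ y, ‖fderiv ℝ g y‖ ≤ C2 := by
    intro y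
    exact norm_fderiv_le_of_lipschitz ℝ (f := g) (x₀ := y) (C := ⟨C2, by positivity⟩)
      (LipschitzWith.of_dist_le_mul fun x y => by
        rw [Real.dist_eq]
        exact hgL x y)
  have i1 : Integrable (fun y => g y ^ 2 * ρ y) := by
    refine hρi.bdd_mul (c := C2 ^ 2) (hgc.pow 2).aestronglyMeasurable
      (Eventually.of_forall fun y => ?_)
    rw [Real.norm_of_nonneg (sq_nonneg _)]
    exact sq_le_sq' (by have := (abs_le.1 (hgb y)).1; linarith) (abs_le.1 (hgb y)).2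
  have i2 : Integrable (fun y => g y * ρ y) :=
    hρi.bdd_mul (c := C2) hgc.aestronglyMeasurable (Eventually.of_forall hgb)
  have i3 : Integrable (fun y => gr g y * ρ y) := by
    refine hρi.bdd_mul (c := n * C2 ^ 2) hgm.aestronglyMeasurable
      (Eventually.of_forall fun y => ?_)
    unfold gr
    rw [Real.norm_of_nonneg (Finset.sum_nonneg fun v _ => sq_nonneg _)]
    calc ∑ v, (fderiv ℝ g y (Pi.single v 1)) ^ 2 ≤ ∑ _v : P, C2 ^ 2 := by
          refine Finset.sum_le_sum fun v _ => ?_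
          have h := (fderiv ℝ g y).le_opNorm (Pi.single v (1 : ℝ) : P → ℝ)
          rw [Pi.norm_single, norm_one, mul_one] at h
          have h' := h.trans (hgfd y)
          rw [Real.norm_eq_abs] at h'
          exact sq_le_sq' (by have := (abs_le.1 h').1; linarith) (abs_le.1 h').2
      _ = n * C2 ^ 2 := by simp [hn]
  rw [htr (fun y => g y ^ 2) (fun y => f y ^ 2)
      (fun x' _ σ ε _ h3 _ y hy => by change g y ^ 2 = f (sp σ ε y) ^ 2; rw [h3 y hy]) i1,
    htr g f (fun x' _ σ ε _ h3 _ y hy => h3 y hy) i2,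
    htr (gr g) (gr f) (fun x' _ σ ε _ _ h6 y hy => h6 y hy) i3] at hmain
  have hN : (0 : ℝ) < (XX P).card := by
    exact_mod_cast Finset.card_pos.2 ⟨x, hx⟩
  have e : ((XX P).card : ℝ) * ((∫ y in Ch x, f y ^ 2 * ρ y) -
      (XX P).card * (∫ y in Ch x, f y * ρ y) ^ 2) ≤
      (XX P).card * (K * s * ∫ y in Ch x, gr f y * ρ y) := by
    nlinarith [hmain]
  exact le_of_mul_le_mul_left e hN

end Run7.h324.KF
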