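import Pool.Agent.Run7.h523.KF.Iface3

/-!
# Piece MOL: from `C¹` to Lipschitz functions by mollification (helper324)
-/

set_option autoImplicit false

namespace Run7.h324.KF

open MeasureTheory Set Filter Topology Metric Run7.h523.KF

section
variable {P : Type} [Fintype P]

/-- the mollification -/
noncomputable def gm (φ : ContDiffBump (0 : P → ℝ)) (g : (P → ℝ) → ℝ) (x : P → ℝ) : ℝ :=
  ∫ t, φ.normed volume t * g (x - t)

theorem int_ok (φ : ContDiffBump (0 : P → ℝ)) {F : (P → ℝ) → ℝ} (hF : Continuous F) :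
    Integrable (fun t => φ.normed volume t * F t) :=
  (φ.continuous_normed.mul hF).integrable_of_hasCompactSupport
    (φ.hasCompactSupport_normed.mul_right)

theorem key (φ : ContDiffBump (0 : P → ℝ)) {F : (P → ℝ) → ℝ} {c : ℝ}
    (h : ∀ t ∈ ball (0 : P → ℝ) φ.rOut, |F t| ≤ c) :
    |∫ t, φ.normed volume t * F t| ≤ c := by
  have h1 : ‖∫ t, φ.normed volume t * F t‖ ≤ ∫ t, φ.normed volume t * c := by
    refine norm_integral_le_of_norm_le (φ.integrable_normed.mul_const c) ?_
    refine Eventually.of_forall fun t => ?_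
    by_cases ht : t ∈ ball (0 : P → ℝ) φ.rOut
    · rw [norm_mul, Real.norm_of_nonneg (φ.nonneg_normed t)]
      exact mul_le_mul_of_nonneg_left (h t ht) (φ.nonneg_normed t)
    · have h0 : φ.normed volume t = 0 := by
        by_contra hne
        exact ht (φ.support_normed_eq (μ := volume) ▸ Function.mem_support.2 hne)
      simp [h0]
  rw [integral_mul_const, φ.integral_normed, one_mul] at h1
  exact h1

theorem gm_contDiff (φ : ContDiffBump (0 : P → ℝ)) {g : (P → ℝ) → ℝ} (hg : Continuous g) :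
    ContDiff ℝ 1 (gm φ g) := by
  have h := φ.hasCompactSupport_normed.contDiff_convolution_left (n := 1)
    (ContinuousLinearMap.lsmul ℝ ℝ) (φ.contDiff_normed (μ := volume) (n := 1))
    (hg.locallyIntegrable (μ := volume))
  exact h

theorem gm_sub (φ : ContDiffBump (0 : P → ℝ)) {g : (P → ℝ) → ℝ} (hg : Continuous g)
    (x y : P → ℝ) (c : ℝ) :
    gm φ g x - gm φ g y - c = ∫ t, φ.normed volume t * (g (x - t) - g (y - t) - c) := by
  unfold gm
  have h1 := int_ok φ (F := fun t => g (x - t)) (by fun_prop)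
  have h2 := int_ok φ (F := fun t => g (y - t)) (by fun_prop)
  have h3 := φ.integrable_normed (μ := (volume : Measure (P → ℝ))) |>.mul_const c
  have e : (fun t => φ.normed volume t * (g (x - t) - g (y - t) - c)) =
      fun t => φ.normed volume t * g (x - t) - φ.normed volume t * g (y - t) -
        φ.normed volume t * c := by
    funext t; ring
  have h4 : Integrable (fun t => φ.normed volume t * g (x - t) -
      φ.normed volume t * g (y - t)) := h1.sub h2
  rw [e, integral_sub h4 h3, integral_sub h1 h2, integral_mul_const, φ.integral_normed, one_mul]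

theorem gm_near (φ : ContDiffBump (0 : P → ℝ)) {g : (P → ℝ) → ℝ} (hg : Continuous g) {C : ℝ}
    (hL : ∀ x y, |g x - g y| ≤ C * dist x y) (hC : 0 ≤ C) (x : P → ℝ) :
    |gm φ g x - g x| ≤ C * φ.rOut := by
  unfold gm
  have h1 := int_ok φ (F := fun t => g (x - t)) (by fun_prop)
  have h3 := φ.integrable_normed (μ := (volume : Measure (P → ℝ))) |>.mul_const (g x)
  have e : (∫ t, φ.normed volume t * g (x - t)) - g x =
      ∫ t, φ.normed volume t * (g (x - t) - g x) := by
    have e' : (fun t => φ.normed volume t * (g (x - t) - g x)) =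
        fun t => φ.normed volume t * g (x - t) - φ.normed volume t * g x := by
      funext t; ring
    rw [e', integral_sub h1 h3, integral_mul_const, φ.integral_normed, one_mul]
  rw [e]
  refine key φ fun t ht => ?_
  refine (hL _ _).trans (mul_le_mul_of_nonneg_left ?_ hC)
  rw [mem_ball, dist_zero_right] at ht
  rw [dist_eq_norm]
  have : x - t - x = -t := by abel
  rw [this, norm_neg]
  exact ht.le

theorem gm_lip (φ : ContDiffBump (0 : P → ℝ)) {g : (P → ℝ) → ℝ} (hg : Continuous g) {C : ℝ}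
    (hL : ∀ x y, |g x - g y| ≤ C * dist x y) (x y : P → ℝ) :
    |gm φ g x - gm φ g y| ≤ C * dist x y := by
  have h := gm_sub φ hg x y 0
  rw [sub_zero] at h
  rw [h]
  refine key φ fun t _ => ?_
  rw [sub_zero]
  refine (hL _ _).trans_eq ?_
  congr 1
  rw [dist_eq_norm, dist_eq_norm]
  congr 1
  abel

/-- A Lipschitz function has a small derivative. -/
theorem fd_le {f : (P → ℝ) → ℝ} {L : (P → ℝ) →L[ℝ] ℝ} {x : P → ℝ} {ε : ℝ} (hε : 0 ≤ ε)
    (hf : DifferentiableAt ℝ f x)
    (h : ∀ᶠ y in 𝓝 x, |f y - f x - L (y - x)| ≤ ε * ‖y - x‖) : ‖fderiv ℝ f x - L‖ ≤ ε := by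
  have h1 : HasFDerivAt (fun y => f y - L y) (fderiv ℝ f x - L) x :=
    hf.hasFDerivAt.sub L.hasFDerivAt
  refine h1.le_of_lip' hε ?_
  filter_upwards [h] with y hy
  have e : f y - L y - (f x - L x) = f y - f x - L (y - x) := by
    rw [map_sub]; ring
  rw [e]
  exact hy

theorem gm_fderiv_near {g : (P → ℝ) → ℝ} (hg : Continuous g) {U : Set (P → ℝ)} (hU : IsOpen U)
    (hd : ContDiffOn ℝ 1 g U) {x : P → ℝ} (hx : x ∈ U) {ε : ℝ} (hε : 0 < ε) :
    ∃ δ > 0, ∀ φ : ContDiffBump (0 : P → ℝ), φ.rOut < δ →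
      ‖fderiv ℝ (gm φ g) x - fderiv ℝ g x‖ ≤ ε := by
  have hc : ContinuousAt (fderiv ℝ g) x := by
    have h1 : ContDiffAt ℝ 1 g x := hd.contDiffAt (hU.mem_nhds hx)
    exact (h1.fderiv_right (m := 0) (by norm_num)).continuousAt
  obtain ⟨r1, hr1, h1⟩ := Metric.continuousAt_iff.1 hc ε hε
  obtain ⟨r2, hr2, h2⟩ := Metric.isOpen_iff.1 hU x hx
  set r := min r1 r2 with hr
  have hr0 : 0 < r := lt_min hr1 hr2
  have hdiff : ∀ y ∈ ball x r, DifferentiableAt ℝ g y := by
    intro y hy
    have hyU : y ∈ U := h2 (ball_subset_ball (min_le_right _ _) hy)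
    exact (hd.contDiffAt (hU.mem_nhds hyU)).differentiableAt (by norm_num)
  have hb : ∀ y ∈ ball x r, ‖fderiv ℝ g y - fderiv ℝ g x‖ ≤ ε := by
    intro y hy
    have := h1 (x := y) ((mem_ball.1 hy).trans_le (min_le_left _ _))
    rw [dist_eq_norm] at this
    exact this.le
  refine ⟨r / 2, by positivity, fun φ hφ => ?_⟩
  refine fd_le hε.le ((gm_contDiff φ hg).contDiffAt.differentiableAt (by norm_num)) ?_
  filter_upwards [ball_mem_nhds x (half_pos hr0)] with y hy
  rw [gm_sub φ hg y x]
  refine key φ fun t ht => ?_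
  rw [mem_ball, dist_zero_right] at ht
  rw [mem_ball, dist_eq_norm] at hy
  have hy' : y - t ∈ ball x r := by
    rw [mem_ball, dist_eq_norm]
    calc ‖y - t - x‖ = ‖(y - x) - t‖ := by congr 1; abel
      _ ≤ ‖y - x‖ + ‖t‖ := norm_sub_le _ _
      _ < r := by linarith
  have hx' : x - t ∈ ball x r := by
    rw [mem_ball, dist_eq_norm]
    calc ‖x - t - x‖ = ‖t‖ := by
          have : x - t - x = -t := by abel
          rw [this, norm_neg]
      _ < r := by linarith
  have h3 := Convex.norm_image_sub_le_of_norm_fderiv_le' (𝕜 := ℝ) hdiff hb (convex_ball x r) hx' hy'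
  have e : y - t - (x - t) = y - x := by abel
  rw [e] at h3
  exact h3

/-- the sequence of bumps -/
noncomputable def bp (n : ℕ) : ContDiffBump (0 : P → ℝ) where
  rIn := 1 / (2 * ((n : ℝ) + 1))
  rOut := 1 / ((n : ℝ) + 1)
  rIn_pos := by positivity
  rIn_lt_rOut := by
    have h : (0 : ℝ) < (n : ℝ) + 1 := by positivity
    exact one_div_lt_one_div_of_lt h (by linarith)

theorem bp_out (n : ℕ) : (bp (P := P) n).rOut = 1 / ((n : ℝ) + 1) := rfl

theorem bp_le (n : ℕ) : (bp (P := P) n).rOut ≤ 1 := by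
  rw [bp_out, div_le_one (by positivity)]
  have : (0 : ℝ) ≤ n := Nat.cast_nonneg n
  linarith

theorem bp_tendsto : Tendsto (fun n => (bp (P := P) n).rOut) atTop (𝓝 0) :=
  tendsto_one_div_add_atTop_nhds_zero_nat

end

theorem t_MOL : S_MOL := by
  intro P _ _ ρ K C g U hρ0 hρm hρ1 hP hgb hgL hU hU0 hgd
  have hC : 0 ≤ C := (abs_nonneg _).trans (hgb 0)
  have hgc : Continuous g := by
    refine (LipschitzWith.of_dist_le_mul (K := ⟨C, hC⟩) fun x y => ?_).continuous
    rw [Real.dist_eq]
    exact hgL x y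
  have hρi : Integrable ρ := by
    refine ⟨hρm.aestronglyMeasurable, ?_⟩
    rw [hasFiniteIntegral_iff_ofReal (Eventually.of_forall hρ0), hρ1]
    exact ENNReal.one_lt_top
  set gn : ℕ → (P → ℝ) → ℝ := fun n => gm (bp n) g with hgn
  have hnear : ∀ n x, |gn n x - g x| ≤ C * (bp (P := P) n).rOut := fun n x =>
    gm_near (bp n) hgc hgL hC x
  have hbd : ∀ n x, |gn n x| ≤ 2 * C := by
    intro n x
    have h1 := hnear n x
    have h2 := hgb x
    have h3 : C * (bp (P := P) n).rOut ≤ C * 1 := mul_le_mul_of_nonneg_left (bp_le n) hC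
    have h4 : |gn n x| ≤ |gn n x - g x| + |g x| := by
      have := abs_add_le (gn n x - g x) (g x)
      simpa using this
    linarith
  have hcd : ∀ n, ContDiff ℝ 1 (gn n) := fun n => gm_contDiff _ hgc
  have hfd : ∀ n x, ‖fderiv ℝ (gn n) x‖ ≤ C := by
    intro n x
    have h := norm_fderiv_le_of_lipschitz ℝ (f := gn n) (x₀ := x) (C := ⟨C, hC⟩)
      (LipschitzWith.of_dist_le_mul fun x y => by
        rw [Real.dist_eq]
        exact gm_lip (bp n) hgc hgL x y)
    exact h
  have hgfd : ∀ x, ‖fderiv ℝ g x‖ ≤ C := by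
    intro x
    exact norm_fderiv_le_of_lipschitz ℝ (f := g) (x₀ := x) (C := ⟨C, hC⟩)
      (LipschitzWith.of_dist_le_mul fun x y => by
        rw [Real.dist_eq]
        exact hgL x y)
  have hone : ∀ v : P, ‖(Pi.single v (1 : ℝ) : P → ℝ)‖ = 1 := fun v => by
    rw [Pi.norm_single, norm_one]
  have hpd : ∀ n x v, |fderiv ℝ (gn n) x (Pi.single v 1)| ≤ C := by
    intro n x v
    have h := (fderiv ℝ (gn n) x).le_opNorm (Pi.single v (1 : ℝ) : P → ℝ)
    rw [hone, mul_one] at h
    exact h.trans (hfd n x)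
  have hBf : ∀ n, Bf (gn n) (2 * C) := fun n =>
    ⟨hcd n, hbd n, fun x v => (hpd n x v).trans (by linarith)⟩
  have hlim : ∀ x, Tendsto (fun n => gn n x) atTop (𝓝 (g x)) := by
    intro x
    rw [tendsto_iff_dist_tendsto_zero]
    refine squeeze_zero (fun n => dist_nonneg) (fun n => ?_)
      (g := fun n => C * (bp (P := P) n).rOut) ?_
    · rw [Real.dist_eq]; exact hnear n x
    · simpa using bp_tendsto.const_mul C
  have hlimd : ∀ x ∈ U, Tendsto (fun n => fderiv ℝ (gn n) x) atTop (𝓝 (fderiv ℝ g x)) := by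
    intro x hx
    rw [Metric.tendsto_atTop]
    intro ε hε
    obtain ⟨δ, hδ, h⟩ := gm_fderiv_near hgc hU hgd hx (half_pos hε)
    obtain ⟨N, hN⟩ := (Metric.tendsto_atTop.1 (bp_tendsto (P := P))) δ hδ
    refine ⟨N, fun n hn => ?_⟩
    have h1 := hN n hn
    rw [Real.dist_eq, sub_zero, abs_of_pos (bp n).rOut_pos] at h1
    rw [dist_eq_norm]
    exact (h (bp n) h1).trans_lt (half_lt_self hε)
  -- the three limits
  have hgnc : ∀ n, Continuous (gn n) := fun n => (hcd n).continuous
  have L1 : Tendsto (fun n => ∫ y, gn n y ^ 2 * ρ y) atTop (𝓝 (∫ y, g y ^ 2 * ρ y)) := by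
    refine tendsto_integral_of_dominated_convergence (fun y => (2 * C) ^ 2 * ρ y)
      (fun n => ((hgnc n).pow 2).aestronglyMeasurable.mul hρm.aestronglyMeasurable)
      (hρi.const_mul _) (fun n => Eventually.of_forall fun y => ?_)
      (Eventually.of_forall fun y => ((hlim y).pow 2).mul_const _)
    rw [norm_mul, Real.norm_of_nonneg (hρ0 y), Real.norm_of_nonneg (sq_nonneg _)]
    refine mul_le_mul_of_nonneg_right ?_ (hρ0 y)
    exact sq_le_sq' (by have := (abs_le.1 (hbd n y)).1; linarith) (abs_le.1 (hbd n y)).2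
  have L2 : Tendsto (fun n => ∫ y, gn n y * ρ y) atTop (𝓝 (∫ y, g y * ρ y)) := by
    refine tendsto_integral_of_dominated_convergence (fun y => (2 * C) * ρ y)
      (fun n => (hgnc n).aestronglyMeasurable.mul hρm.aestronglyMeasurable)
      (hρi.const_mul _) (fun n => Eventually.of_forall fun y => ?_)
      (Eventually.of_forall fun y => (hlim y).mul_const _)
    rw [norm_mul, Real.norm_of_nonneg (hρ0 y)]
    exact mul_le_mul_of_nonneg_right (hbd n y) (hρ0 y)
  have hgrc : ∀ n, Continuous (gr (gn n)) := by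
    intro n
    unfold gr
    refine continuous_finset_sum _ fun v _ => ?_
    exact (((hcd n).continuous_fderiv (by norm_num)).clm_apply continuous_const).pow 2
  have L3 : Tendsto (fun n => ∫ y, gr (gn n) y * ρ y) atTop (𝓝 (∫ y, gr g y * ρ y)) := by
    refine tendsto_integral_of_dominated_convergence (fun y => (Fintype.card P * C ^ 2) * ρ y)
      (fun n => (hgrc n).aestronglyMeasurable.mul hρm.aestronglyMeasurable)
      (hρi.const_mul _) (fun n => Eventually.of_forall fun y => ?_) ?_
    · rw [norm_mul, Real.norm_of_nonneg (hρ0 y)]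
      refine mul_le_mul_of_nonneg_right ?_ (hρ0 y)
      unfold gr
      rw [Real.norm_of_nonneg (Finset.sum_nonneg fun v _ => sq_nonneg _)]
      calc ∑ v, (fderiv ℝ (gn n) y (Pi.single v 1)) ^ 2 ≤ ∑ _v : P, C ^ 2 :=
            Finset.sum_le_sum fun v _ => sq_le_sq' (by have := (abs_le.1 (hpd n y v)).1; linarith)
              (abs_le.1 (hpd n y v)).2
        _ = Fintype.card P * C ^ 2 := by simp
    · have hae : ∀ᵐ y, y ∈ U := by
        rw [ae_iff]
        exact hU0
      filter_upwards [hae] with y hy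
      refine Tendsto.mul_const _ ?_
      unfold gr
      refine tendsto_finset_sum _ fun v _ => ?_
      refine Tendsto.pow ?_ 2
      exact ((ContinuousLinearMap.apply ℝ ℝ (Pi.single v (1 : ℝ) : P → ℝ)).continuous.tendsto
        _).comp (hlimd y hy)
  exact le_of_tendsto_of_tendsto' (L1.sub (L2.pow 2)) (L3.const_mul K) fun n =>
    hP (gn n) (2 * C) (hBf n)

end Run7.h324.KF
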